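import Pool.Agent.N658.TP.Stm3
import Pool.Agent.N26.TP.CmpB

/-!
# TP/CmpF: comparison with one vector for all box sizes (helper152, for helper658)
-/

set_option autoImplicit false

open scoped BigOperators ComplexConjugate Classical

noncomputable section

namespace Pool.Agent.N152.TP

open Pool.Agent.Y738.PE Pool.Agent.N658.TP

theorem cmpF : StmCmpF := by
  intro d n L _ _ hn hL Ψ hΨ hTI
  obtain ⟨φ, hφ1, -, hgood⟩ := Pool.Agent.N26.TP.cmp_gen d 1 n (2 * n) L rfl one_pos hn hL Ψ hΨ hTI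
  refine ⟨φ, hφ1, fun r hr hrn B hB => ?_⟩
  have hdiff : enS φ B - ((2 * n : ℕ) : ℂ) ^ 2 * expec Ψ 0 B =
      ∑ u : Site (2 * n), (expec φ u B - expec Ψ 0 B) := by
    unfold enS
    rw [Finset.sum_sub_distrib, Finset.sum_const, Finset.card_univ]
    have hc : Fintype.card (Site (2 * n)) = (2 * n) ^ 2 := by
      rw [Fintype.card_prod, ZMod.card]
      ring
    rw [hc, nsmul_eq_mul]
    push_cast
    ring
  rw [hdiff]
  have hterm : ∀ u : Site (2 * n), ‖expec φ u B - expec Ψ 0 B‖ ≤
      if ¬ Pool.Agent.N26.TP.Gd r n u then (2 : ℝ) else 0 := by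
    intro u
    by_cases hu : ¬ Pool.Agent.N26.TP.Gd r n u
    · rw [if_pos hu]
      have b1 := Pool.Agent.Y65.PE.bound d (2 * n) r (by omega) φ u B hB
      have b2 := Pool.Agent.Y65.PE.bound d L r (by omega) Ψ 0 B hB
      rw [hφ1] at b1
      rw [hΨ] at b2
      refine (norm_sub_le _ _).trans ?_
      linarith
    · rw [if_neg hu]
      rw [not_not] at hu
      unfold Pool.Agent.N26.TP.Gd at hu
      have e := hgood r (u.1.val, u.2.val) hr (by omega) hu.2 (by omega) B
      have e2 : ((((u.1.val, u.2.val) : ℕ × ℕ).1 : ZMod (2 * n)),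
          (((u.1.val, u.2.val) : ℕ × ℕ).2 : ZMod (2 * n))) = u :=
        Prod.ext (ZMod.natCast_zmod_val u.1) (ZMod.natCast_zmod_val u.2)
      rw [e2] at e
      rw [e, sub_self, norm_zero]
  refine (norm_sum_le _ _).trans ((Finset.sum_le_sum fun u _ => hterm u).trans ?_)
  rw [← Finset.sum_filter, Finset.sum_const, nsmul_eq_mul]
  have hc := Pool.Agent.N26.TP.card_bad r n hrn
  have hc' : (((Finset.univ : Finset (Site (2 * n))).filter
      fun u => ¬ Pool.Agent.N26.TP.Gd r n u).card : ℝ) ≤ 6 * r * n := by exact_mod_cast hc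
  linarith

end Pool.Agent.N152.TP
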